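import Pool.Agent.H75.INF.Defs

/-!
# [H88 DT FIN] The Coxeter group of a star with three leaves is finite
-/

set_option autoImplicit false

namespace Pool.Agent.H88.DT

/-- finitely many cosets -/
private theorem fin_coset {G : Type*} [Group G] (H : Subgroup G) (hH : (H : Set G).Finite) (S : Set G) (hinv : ∀ s ∈ S, s * s = 1)
    (X : Set G) (hX : X.Finite) (h1 : 1 ∈ X) (hstep : ∀ s ∈ S, ∀ x ∈ X, ∃ y ∈ X, ∃ h ∈ H, s * x = y * h) :
    (Subgroup.closure S : Set G).Finite := by
  have hfin : (Set.image2 (fun x h : G => x * h) X (H : Set G)).Finite := hX.image2 _ hH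
  have hs : ∀ s ∈ S, ∀ z ∈ Set.image2 (fun x h : G => x * h) X (H : Set G),
      s * z ∈ Set.image2 (fun x h : G => x * h) X (H : Set G) := by
    rintro s hs _ ⟨x, hx, h, hh, rfl⟩
    obtain ⟨y, hy, h', hh', e⟩ := hstep s hs x hx
    refine ⟨y, hy, h' * h, H.mul_mem hh' hh, ?_⟩
    show y * (h' * h) = s * (x * h)
    rw [← mul_assoc, ← mul_assoc, e]
  refine hfin.subset ?_
  intro z hz
  have hz' : z ∈ Subgroup.closure S := hz
  clear hz
  induction hz' using Subgroup.closure_induction_left with
  | one => exact ⟨1, h1, 1, H.one_mem, mul_one 1⟩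
  | mul_left s hs' y hy ih => exact hs s hs' y ih
  | inv_mul_cancel s hs' y hy ih =>
    rw [inv_eq_of_mul_eq_one_right (hinv s hs')]
    exact hs s hs' y ih

/-- the group generated by the star -/
private theorem fin_star {G : Type*} [Group G] {c p q r : G} (hc : c * c = 1) (hp : p * p = 1) (hq : q * q = 1) (hr : r * r = 1)
    (pq : q * p = p * q) (pr : r * p = p * r) (qr : r * q = q * r) (cp : c * p * c = p * c * p) (cq : c * q * c = q * c * q)
    (cr : c * r * c = r * c * r) : (Subgroup.closure ({c, p, q, r} : Set G) : Set G).Finite := by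
  have hc' : ∀ x, c * (c * x) = x := fun x => by rw [← mul_assoc, hc, one_mul]
  have hp' : ∀ x, p * (p * x) = x := fun x => by rw [← mul_assoc, hp, one_mul]
  have hq' : ∀ x, q * (q * x) = x := fun x => by rw [← mul_assoc, hq, one_mul]
  have hr' : ∀ x, r * (r * x) = x := fun x => by rw [← mul_assoc, hr, one_mul]
  have pq' : ∀ x, q * (p * x) = p * (q * x) := fun x => by rw [← mul_assoc, pq, mul_assoc]
  have pr' : ∀ x, r * (p * x) = p * (r * x) := fun x => by rw [← mul_assoc, pr, mul_assoc]
  have qr' : ∀ x, r * (q * x) = q * (r * x) := fun x => by rw [← mul_assoc, qr, mul_assoc]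
  have cp1 : c * (p * c) = p * (c * p) := by rw [← mul_assoc, cp, mul_assoc]
  have cq1 : c * (q * c) = q * (c * q) := by rw [← mul_assoc, cq, mul_assoc]
  have cr1 : r * (c * r) = c * (r * c) := by rw [← mul_assoc, ← cr, mul_assoc]
  have cp' : ∀ x, c * (p * (c * x)) = p * (c * (p * x)) := fun x => by
    rw [← mul_assoc, ← mul_assoc, cp, mul_assoc, mul_assoc]
  have cq' : ∀ x, c * (q * (c * x)) = q * (c * (q * x)) := fun x => by
    rw [← mul_assoc, ← mul_assoc, cq, mul_assoc, mul_assoc]
  have cr' : ∀ x, r * (c * (r * x)) = c * (r * (c * x)) := fun x => by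
    rw [← mul_assoc, ← mul_assoc, ← cr, mul_assoc, mul_assoc]
  have H1 : (Subgroup.closure ({p} : Set G) : Set G).Finite := by
    refine fin_coset ⊥ (by rw [Subgroup.coe_bot]; exact Set.finite_singleton _) {p} ?_ {1, p} (Set.toFinite _)
      (by simp) ?_
    · rintro s hs
      rw [Set.mem_singleton_iff] at hs
      rw [hs, hp]
    · rintro s hs x hx
      simp only [Set.mem_insert_iff, Set.mem_singleton_iff] at hs hx
      rcases hx with hx | hx <;> rw [hs, hx]
      · exact ⟨p, by simp, 1, by simp, rfl⟩
      · exact ⟨1, by simp, 1, by simp, by rw [hp, mul_one]⟩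
  have H2 : (Subgroup.closure ({p, c} : Set G) : Set G).Finite := by
    have hpH : p ∈ Subgroup.closure ({p} : Set G) := Subgroup.subset_closure rfl
    refine fin_coset _ H1 {p, c} ?_ {1, c, p * c} (Set.toFinite _) (by simp) ?_
    · rintro s hs
      simp only [Set.mem_insert_iff, Set.mem_singleton_iff] at hs
      rcases hs with hs | hs <;> rw [hs]
      · exact hp
      · exact hc
    · rintro s hs x hx
      simp only [Set.mem_insert_iff, Set.mem_singleton_iff] at hs hx
      rcases hs with hs | hs <;> rcases hx with hx | hx | hx <;> rw [hs, hx]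
      · exact ⟨1, by simp, p, hpH, by rw [mul_one, one_mul]⟩
      · exact ⟨p * c, by simp, 1, one_mem _, by rw [mul_one]⟩
      · exact ⟨c, by simp, 1, one_mem _, by rw [hp', mul_one]⟩
      · exact ⟨c, by simp, 1, one_mem _, rfl⟩
      · exact ⟨1, by simp, 1, one_mem _, by rw [hc, mul_one]⟩
      · exact ⟨p * c, by simp, p, hpH, by rw [cp1, mul_assoc]⟩
  have H3 : (Subgroup.closure ({p, c, q} : Set G) : Set G).Finite := by
    have hpH : p ∈ Subgroup.closure ({p, c} : Set G) := Subgroup.subset_closure (by simp)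
    have hcH : c ∈ Subgroup.closure ({p, c} : Set G) := Subgroup.subset_closure (by simp)
    refine fin_coset _ H2 {p, c, q} ?_ {1, q, c * q, p * (c * q)} (Set.toFinite _) (by simp) ?_
    · rintro s hs
      simp only [Set.mem_insert_iff, Set.mem_singleton_iff] at hs
      rcases hs with hs | hs | hs <;> rw [hs]
      · exact hp
      · exact hc
      · exact hq
    · rintro s hs x hx
      simp only [Set.mem_insert_iff, Set.mem_singleton_iff] at hs hx
      rcases hs with hs | hs | hs <;> rcases hx with hx | hx | hx | hx <;> rw [hs, hx]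
      · exact ⟨1, by simp, p, hpH, by rw [mul_one, one_mul]⟩
      · exact ⟨q, by simp, p, hpH, pq.symm⟩
      · exact ⟨p * (c * q), by simp, 1, one_mem _, by rw [mul_one]⟩
      · exact ⟨c * q, by simp, 1, one_mem _, by rw [hp', mul_one]⟩
      · exact ⟨1, by simp, c, hcH, by rw [mul_one, one_mul]⟩
      · exact ⟨c * q, by simp, 1, one_mem _, by rw [mul_one]⟩
      · exact ⟨q, by simp, 1, one_mem _, by rw [hc', mul_one]⟩
      · exact ⟨p * (c * q), by simp, p, hpH, by rw [cp', mul_assoc, mul_assoc, pq]⟩
      · exact ⟨q, by simp, 1, one_mem _, rfl⟩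
      · exact ⟨1, by simp, 1, one_mem _, by rw [hq, mul_one]⟩
      · exact ⟨c * q, by simp, c, hcH, by rw [← cq1, mul_assoc]⟩
      · exact ⟨p * (c * q), by simp, c, hcH, by rw [pq', ← cq1, mul_assoc, mul_assoc]⟩
  have H4 : (Subgroup.closure ({p, c, q, r} : Set G) : Set G).Finite := by
    have hpH : p ∈ Subgroup.closure ({p, c, q} : Set G) := Subgroup.subset_closure (by simp)
    have hcH : c ∈ Subgroup.closure ({p, c, q} : Set G) := Subgroup.subset_closure (by simp)
    have hqH : q ∈ Subgroup.closure ({p, c, q} : Set G) := Subgroup.subset_closure (by simp)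
    refine fin_coset _ H3 {p, c, q, r} ?_ {1, r, c * r, p * (c * r), q * (c * r), p * (q * (c * r)),
      c * (p * (q * (c * r))), r * (c * (p * (q * (c * r))))} (Set.toFinite _) (by simp) ?_
    · rintro s hs
      simp only [Set.mem_insert_iff, Set.mem_singleton_iff] at hs
      rcases hs with hs | hs | hs | hs <;> rw [hs]
      · exact hp
      · exact hc
      · exact hq
      · exact hr
    · rintro s hs x hx
      simp only [Set.mem_insert_iff, Set.mem_singleton_iff] at hs hx
      rcases hs with hs | hs | hs | hs <;> rcases hx with hx | hx | hx | hx | hx | hx | hx | hx <;> rw [hs, hx]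
      -- p
      · exact ⟨1, by simp, p, hpH, by rw [mul_one, one_mul]⟩
      · exact ⟨r, by simp, p, hpH, pr.symm⟩
      · exact ⟨p * (c * r), by simp, 1, one_mem _, by rw [mul_one]⟩
      · exact ⟨c * r, by simp, 1, one_mem _, by rw [hp', mul_one]⟩
      · exact ⟨p * (q * (c * r)), by simp, 1, one_mem _, by rw [mul_one]⟩
      · exact ⟨q * (c * r), by simp, 1, one_mem _, by rw [hp', mul_one]⟩
      · exact ⟨c * (p * (q * (c * r))), by simp, q, hqH, by
          simp only [mul_assoc]
          rw [← cp', cq', qr]⟩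
      · exact ⟨r * (c * (p * (q * (c * r)))), by simp, q, hqH, by
          simp only [mul_assoc]
          rw [← pr', ← cp', cq', qr]⟩
      -- c
      · exact ⟨1, by simp, c, hcH, by rw [mul_one, one_mul]⟩
      · exact ⟨c * r, by simp, 1, one_mem _, by rw [mul_one]⟩
      · exact ⟨r, by simp, 1, one_mem _, by rw [hc', mul_one]⟩
      · exact ⟨p * (c * r), by simp, p, hpH, by
          simp only [mul_assoc]
          rw [cp', pr]⟩
      · exact ⟨q * (c * r), by simp, q, hqH, by
          simp only [mul_assoc]
          rw [cq', qr]⟩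
      · exact ⟨c * (p * (q * (c * r))), by simp, 1, one_mem _, by rw [mul_one]⟩
      · exact ⟨p * (q * (c * r)), by simp, 1, one_mem _, by rw [hc', mul_one]⟩
      · exact ⟨r * (c * (p * (q * (c * r)))), by simp, c, hcH, by
          simp only [mul_assoc]
          rw [← cr', pr', qr', cr1]⟩
      -- q
      · exact ⟨1, by simp, q, hqH, by rw [mul_one, one_mul]⟩
      · exact ⟨r, by simp, q, hqH, qr.symm⟩
      · exact ⟨q * (c * r), by simp, 1, one_mem _, by rw [mul_one]⟩
      · exact ⟨p * (q * (c * r)), by simp, 1, one_mem _, by rw [mul_one, pq']⟩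
      · exact ⟨c * r, by simp, 1, one_mem _, by rw [hq', mul_one]⟩
      · exact ⟨p * (c * r), by simp, 1, one_mem _, by rw [pq', hq', mul_one]⟩
      · exact ⟨c * (p * (q * (c * r))), by simp, p, hpH, by
          simp only [mul_assoc]
          rw [← pq' (c * r), ← cq', cp', pq', pr]⟩
      · exact ⟨r * (c * (p * (q * (c * r)))), by simp, p, hpH, by
          simp only [mul_assoc]
          rw [← qr', ← pq' (c * r), ← cq', cp', pq', pr]⟩
      -- r
      · exact ⟨r, by simp, 1, one_mem _, rfl⟩
      · exact ⟨1, by simp, 1, one_mem _, by rw [hr, mul_one]⟩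
      · exact ⟨c * r, by simp, c, hcH, by rw [cr1, mul_assoc]⟩
      · exact ⟨p * (c * r), by simp, c, hcH, by
          simp only [mul_assoc]
          rw [pr', cr1]⟩
      · exact ⟨q * (c * r), by simp, c, hcH, by
          simp only [mul_assoc]
          rw [qr', cr1]⟩
      · exact ⟨p * (q * (c * r)), by simp, c, hcH, by
          simp only [mul_assoc]
          rw [pr', qr', cr1]⟩
      · exact ⟨r * (c * (p * (q * (c * r)))), by simp, 1, one_mem _, by rw [mul_one]⟩
      · exact ⟨c * (p * (q * (c * r))), by simp, 1, one_mem _, by rw [hr', mul_one]⟩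
  have e : ({c, p, q, r} : Set G) = {p, c, q, r} := Set.insert_comm _ _ _
  rw [e]
  exact H4

/-- the star with three leaves: the centre `c`, the leaves `p`, `q`, `r` -/
theorem finite_star {B : Type} (M : CoxeterMatrix B) {c p q r : B} (hB : ∀ b, b = c ∨ b = p ∨ b = q ∨ b = r)
    (cp : M c p = 3) (cq : M c q = 3) (cr : M c r = 3) (pq : M p q = 2) (pr : M p r = 2) (qr : M q r = 2) :
    Finite M.Group := by
  obtain ⟨cs, hcs⟩ : ∃ cs : CoxeterSystem M M.Group, cs = M.toCoxeterSystem := ⟨_, rfl⟩
  have h3 : ∀ i j, M i j = 3 → cs.simple i * cs.simple j * cs.simple i = cs.simple j * cs.simple i * cs.simple j := by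
    intro i j h
    have h4 := cs.simple_mul_simple_pow i j
    rw [h] at h4
    have h5 : (cs.simple i * cs.simple j * cs.simple i) * (cs.simple j * cs.simple i * cs.simple j) = 1 := by
      rw [← h4, pow_succ, pow_succ, pow_succ, pow_zero, one_mul]
      simp only [mul_assoc]
    rw [eq_inv_of_mul_eq_one_left h5, mul_inv_rev, mul_inv_rev, cs.inv_simple, cs.inv_simple]
    simp only [mul_assoc]
  have h2 : ∀ i j, M i j = 2 → cs.simple j * cs.simple i = cs.simple i * cs.simple j := by
    intro i j h
    have h4 := cs.simple_mul_simple_pow i j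
    rw [h, pow_two] at h4
    rw [eq_inv_of_mul_eq_one_left h4, mul_inv_rev, cs.inv_simple, cs.inv_simple]
  have h := fin_star (cs.simple_mul_simple_self c) (cs.simple_mul_simple_self p) (cs.simple_mul_simple_self q)
    (cs.simple_mul_simple_self r) (h2 p q pq) (h2 p r pr) (h2 q r qr) (h3 c p cp) (h3 c q cq) (h3 c r cr)
  have htop : Subgroup.closure ({cs.simple c, cs.simple p, cs.simple q, cs.simple r} : Set M.Group) = ⊤ := by
    rw [eq_top_iff, ← cs.subgroup_closure_range_simple]
    refine Subgroup.closure_mono ?_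
    rintro _ ⟨b, rfl⟩
    rcases hB b with rfl | rfl | rfl | rfl <;> simp
  rw [htop, Subgroup.coe_top] at h
  exact Set.finite_univ_iff.1 h

end Pool.Agent.H88.DT
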