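import Pool.Agent.H88.DT.Ker
import Pool.Agent.H88.DT.Fin
import Pool.Agent.H2.UF.Six

/-!
# [H88 DT MAIN] No closed paths of length four for the star with four leaves
-/

set_option autoImplicit false

namespace Pool.Agent.H88.DT

open Pool.H8.CDW Pool.Agent.H52.PAG Pool.Agent.H75.INF Pool.Agent.H54.TF Pool.Agent.H2.UF

variable {B : Type} {M : CoxeterMatrix B} {v : Fin 5 → B}

/-- homomorphisms and the generated subgroups -/
private theorem map_mem {N : Type*} [Group N] {K : Set B} {P : Subgroup N} (φ : Art M →* N) (h : ∀ b ∈ K, φ (gen M b) ∈ P)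
    {x : Art M} (hx : x ∈ ap M K) : φ x ∈ P := by
  refine ap_induction (P := fun x => φ x ∈ P) ?_ ?_ ?_ hx
  · rw [map_one]
    exact one_mem _
  · intro x _ b hb h1
    rw [map_mul]
    exact mul_mem h1 (h b hb)
  · intro x _ b hb h1
    rw [map_mul, map_inv]
    exact mul_mem h1 (inv_mem (h b hb))

private theorem map_congr {N : Type*} [Group N] {K : Set B} (φ ψ : Art M →* N) (h : ∀ b ∈ K, φ (gen M b) = ψ (gen M b))
    {x : Art M} (hx : x ∈ ap M K) : φ x = ψ x := by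
  refine ap_induction (P := fun x => φ x = ψ x) ?_ ?_ ?_ hx
  · rw [map_one, map_one]
  · intro x _ b hb h1
    rw [map_mul, map_mul, h1, h b hb]
  · intro x _ b hb h1
    rw [map_mul, map_mul, map_inv, map_inv, h1, h b hb]

private theorem comm_mem {K : Set B} {a : Art M} (h : ∀ b ∈ K, Commute (gen M b) a) {x : Art M} (hx : x ∈ ap M K) : Commute x a := by
  refine ap_induction (P := fun x => Commute x a) ?_ ?_ ?_ hx
  · exact Commute.one_left _
  · intro x _ b hb h1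
    exact h1.mul_left (h b hb)
  · intro x _ b hb h1
    exact h1.mul_left (h b hb).inv_left

private theorem dec (h : Star M v) {x : Art M} (hx : x ∈ ap M (Set.univ \ {v 0})) :
    ∃ z ∈ ap M (Set.univ \ {v 0, v 4}), ∃ k : ℤ, x = z * gen M (v 4) ^ k := by
  have hc : ∀ {z : Art M}, z ∈ ap M (Set.univ \ {v 0, v 4}) → Commute z (gen M (v 4)) := by
    intro z hz
    refine comm_mem ?_ hz
    rintro b ⟨-, hb⟩
    obtain ⟨i, rfl⟩ := h.surj b
    rw [Set.mem_insert_iff, Set.mem_singleton_iff, not_or] at hb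
    exact h.co (fun e => hb.1 (congrArg v e)) (by decide)
  refine ap_induction (P := fun x => ∃ z ∈ ap M (Set.univ \ {v 0, v 4}), ∃ k : ℤ, x = z * gen M (v 4) ^ k) ?_ ?_ ?_ hx
  · exact ⟨1, one_mem _, 0, by rw [zpow_zero, mul_one]⟩
  · rintro x _ b hb ⟨z, hz, k, rfl⟩
    by_cases hb4 : b = v 4
    · subst hb4
      exact ⟨z, hz, k + 1, by rw [zpow_add_one, mul_assoc]⟩
    · have hb' : gen M b ∈ ap M (Set.univ \ {v 0, v 4}) := gen_mem_ap ⟨trivial, fun e => e.elim hb.2 hb4⟩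
      refine ⟨z * gen M b, mul_mem hz hb', k, ?_⟩
      rw [mul_assoc, mul_assoc, ((hc hb').zpow_right k).eq]
  · rintro x _ b hb ⟨z, hz, k, rfl⟩
    by_cases hb4 : b = v 4
    · subst hb4
      exact ⟨z, hz, k - 1, by rw [zpow_sub_one, mul_assoc]⟩
    · have hb' : (gen M b)⁻¹ ∈ ap M (Set.univ \ {v 0, v 4}) :=
        inv_mem (gen_mem_ap ⟨trivial, fun e => e.elim hb.2 hb4⟩)
      refine ⟨z * (gen M b)⁻¹, mul_mem hz hb', k, ?_⟩
      rw [mul_assoc, mul_assoc, ((hc hb').zpow_right k).eq]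

private theorem gen_inf (h : Star M v) {k : ℤ} (hk : gen M (v 4) ^ k = 1) : k = 0 := by
  obtain ⟨φ, -, -, -, -, h4⟩ := h.hom5 (G := Multiplicative ℤ) (Multiplicative.ofAdd 1) (Multiplicative.ofAdd 1)
    (Multiplicative.ofAdd 1) (Multiplicative.ofAdd 1) (Multiplicative.ofAdd 1) rfl rfl rfl rfl rfl rfl rfl rfl rfl rfl
  have h1 : (Multiplicative.ofAdd (1 : ℤ)) ^ k = 1 := by
    rw [← h4, ← map_zpow φ, hk, map_one φ]
  rw [← ofAdd_zsmul, smul_eq_mul, mul_one] at h1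
  exact Multiplicative.ofAdd.injective h1

private theorem four_mem (h : Star M v) {k : ℤ} (hk : gen M (v 4) ^ k ∈ ap M (({v 2}ᶜ : Set B) \ {v 0, v 4})) : k = 0 := by
  have h2 : gen M (v 4) ∈ ap M ({v 4} : Set B) := gen_mem_ap (Set.mem_singleton (v 4))
  have h3 : gen M (v 4) ^ k ∈ ap M ({v 4} : Set B) := zpow_mem h2 k
  have h4 : gen M (v 4) ^ k ∈ ap M (({v 4} : Set B) ∩ (({v 2}ᶜ : Set B) \ {v 0, v 4})) := by
    rw [← ap_inter]
    exact ⟨h3, hk⟩
  have h5 : (({v 4} : Set B) ∩ (({v 2}ᶜ : Set B) \ {v 0, v 4})) = ∅ := by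
    rw [Set.eq_empty_iff_forall_notMem]
    rintro b ⟨hb, -, hb'⟩
    exact hb' (Or.inr hb)
  rw [h5] at h4
  unfold ap at h4
  rw [Set.image_empty, Subgroup.closure_empty, Subgroup.mem_bot] at h4
  exact gen_inf h h4

private theorem gs_three (h : Star M v) : GS M ({v 2}ᶜ : Set B) (v 0) (v 4) := by
  have n02 : v 0 ≠ v 2 := fun e => absurd (h.inj e) (by decide)
  have n12 : v 1 ≠ v 2 := fun e => absurd (h.inj e) (by decide)
  have n32 : v 3 ≠ v 2 := fun e => absurd (h.inj e) (by decide)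
  have n42 : v 4 ≠ v 2 := fun e => absurd (h.inj e) (by decide)
  have hf : Finite (resM M ({v 2}ᶜ : Set B)).Group := by
    refine finite_star (resM M ({v 2}ᶜ : Set B)) (c := ⟨v 0, n02⟩) (p := ⟨v 1, n12⟩) (q := ⟨v 3, n32⟩) (r := ⟨v 4, n42⟩) ?_
      (h.cen 1 (by decide)) (h.cen 3 (by decide)) (h.cen 4 (by decide)) (h.lea 1 3 (by decide) (by decide) (by decide))
      (h.lea 1 4 (by decide) (by decide) (by decide)) (h.lea 3 4 (by decide) (by decide) (by decide))
    rintro ⟨b, hb⟩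
    obtain ⟨i, rfl⟩ := h.surj b
    fin_cases i
    · exact Or.inl rfl
    · exact Or.inr (Or.inl rfl)
    · exact absurd rfl hb
    · exact Or.inr (Or.inr (Or.inl rfl))
    · exact Or.inr (Or.inr (Or.inr rfl))
  have h1 := gs_fin (resM M ({v 2}ᶜ : Set B)) (b := ⟨v 0, n02⟩) (c := ⟨v 4, n42⟩) (h.cen 4 (by decide)).ge
  have h2 := (gs_res ({v 2}ᶜ : Set B) Set.univ ⟨v 0, n02⟩ ⟨v 4, n42⟩).1 h1
  rwa [Set.image_univ, Subtype.range_coe] at h2

private theorem proj_mem (h : Star M v) {k n : ℤ} (hk : k ≠ 0) {y u : Art M} (hy : y ∈ ap M (({v 2}ᶜ : Set B) \ {v 4}))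
    (hu : u ∈ ap M (({v 2}ᶜ : Set B) \ {v 4})) (he : u = gen M (v 4) ^ k * y * gen M (v 4) ^ n) :
    y ∈ ap M (({v 2}ᶜ : Set B) \ {v 0, v 4}) := by
  have g4 : gen M (v 4) ∈ ap M (({v 2}ᶜ : Set B) \ {v 0}) := by
    refine gen_mem_ap ⟨fun e => ?_, fun e => ?_⟩
    · exact absurd (h.inj e) (by decide)
    · exact absurd (h.inj e) (by decide)
  have h1 : gen M (v 4) ^ k * y * gen M (v 4) ^ n * u⁻¹ = 1 := by
    rw [← he, mul_inv_cancel]
  rcases gs_three h _ (zpow_mem g4 k) _ (zpow_mem g4 n) _ hy _ (inv_mem hu) h1 with h2 | h2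
  · exact absurd (four_mem h h2) hk
  · exact h2

/-- the centre and the last leaf -/
theorem gs_four (h : Star M v) : GS M Set.univ (v 0) (v 4) := by
  intro x hx x' hx' y hy y' hy' he
  obtain ⟨z, hz, k, rfl⟩ := dec h hx
  obtain ⟨z', hz', l, hl⟩ := dec h (inv_mem hx')
  by_cases hk : k = 0
  · left
    rw [hk, zpow_zero, mul_one]
    exact hz
  right
  obtain ⟨n, hn⟩ : ∃ n : ℤ, n = -l := ⟨_, rfl⟩
  have hxl : x' = gen M (v 4) ^ n * z'⁻¹ := by
    rw [← inv_inv x', hl, mul_inv_rev, hn, zpow_neg]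
  have sub4 : (Set.univ \ {v 0, v 4} : Set B) ⊆ Set.univ \ {v 4} :=
    Set.diff_subset_diff_right (by simp)
  obtain ⟨u, hu⟩ : ∃ u, u = gen M (v 4) ^ k * y * gen M (v 4) ^ n := ⟨_, rfl⟩
  have hu4 : u ∈ ap M (Set.univ \ {v 4}) := by
    have h1 : u = z⁻¹ * y'⁻¹ * z' := by
      rw [hxl] at he
      have h2 : z * u * z'⁻¹ * y' = 1 := by
        rw [hu, ← he]
        group
      have h3 := eq_inv_of_mul_eq_one_left h2
      calc u = z⁻¹ * (z * u * z'⁻¹) * z' := by group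
        _ = z⁻¹ * y'⁻¹ * z' := by rw [h3]
    rw [h1]
    exact mul_mem (mul_mem (inv_mem (ap_mono sub4 hz)) (inv_mem hy')) (ap_mono sub4 hz')
  have b1 := h.br (i := 1) (by decide)
  have b2 := h.br (i := 2) (by decide)
  have b3 := h.br (i := 3) (by decide)
  have b4 := h.br (i := 4) (by decide)
  have c12 := h.co (i := 1) (j := 2) (by decide) (by decide)
  have c13 := h.co (i := 1) (j := 3) (by decide) (by decide)
  have c14 := h.co (i := 1) (j := 4) (by decide) (by decide)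
  have c23 := h.co (i := 2) (j := 3) (by decide) (by decide)
  have c34 := h.co (i := 3) (j := 4) (by decide) (by decide)
  have ap4 : ∀ i : Fin 5, i ≠ 4 → v i ∈ (Set.univ \ {v 4} : Set B) := fun i hi => ⟨trivial, fun e => hi (h.inj e)⟩
  -- the identification of the leaves `1` and `2`
  obtain ⟨ψ, p0, p1, p2, p3, p4⟩ := h.hom5 (gen M (v 0)) (gen M (v 1)) (gen M (v 1)) (gen M (v 3)) (gen M (v 4))
    b1 b1 b3 b4 rfl c13 c14 c13 c14 c34
  obtain ⟨κ, k0, k1, k2, k3, k4⟩ := h.hom5 (gen M (v 0)) (gen M (v 1)) (gen M (v 1)) (gen M (v 3)) (gen M (v 1))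
    b1 b1 b3 b1 rfl c13 rfl c13 rfl c13.symm
  obtain ⟨ρ, r0, r1, r2, r3, r4⟩ := h.hom5 (gen M (v 0)) (gen M (v 1)) (gen M (v 2)) (gen M (v 3)) (gen M (v 1))
    b1 b2 b3 b1 c12 c13 rfl c23 c12.symm c13.symm
  obtain ⟨σ, s0, s1, s2, s3, s4⟩ := h.hom5 (gen M (v 0)) (gen M (v 1)) (gen M (v 2)) (gen M (v 3)) (gen M (v 2))
    b1 b2 b3 b2 c12 c13 c12 c23 rfl c23.symm
  have hψ : ∀ {g : Art M}, g ∈ ap M (Set.univ \ {v 4}) → ψ g ∈ ap M (({v 2}ᶜ : Set B) \ {v 4}) := by
    intro g hg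
    have key : ∀ i : Fin 5, i ≠ 2 → i ≠ 4 → gen M (v i) ∈ ap M (({v 2}ᶜ : Set B) \ {v 4}) :=
      fun i h2 h4 => gen_mem_ap ⟨fun e => h2 (h.inj e), fun e => h4 (h.inj e)⟩
    refine map_mem ψ ?_ hg
    rintro b ⟨-, hb⟩
    obtain ⟨i, rfl⟩ := h.surj b
    fin_cases i
    · show ψ (gen M (v 0)) ∈ _
      rw [p0]
      exact key 0 (by decide) (by decide)
    · show ψ (gen M (v 1)) ∈ _
      rw [p1]
      exact key 1 (by decide) (by decide)
    · show ψ (gen M (v 2)) ∈ _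
      rw [p2]
      exact key 1 (by decide) (by decide)
    · show ψ (gen M (v 3)) ∈ _
      rw [p3]
      exact key 3 (by decide) (by decide)
    · exact absurd rfl hb
  have hψy : ψ y ∈ ap M (({v 2}ᶜ : Set B) \ {v 0, v 4}) := proj_mem h hk (hψ hy) (hψ hu4) (by
    rw [hu, map_mul, map_mul, map_zpow, map_zpow, p4])
  have hκψ : κ y = ψ y := by
    refine map_congr κ ψ ?_ hy
    rintro b ⟨-, hb⟩
    obtain ⟨i, rfl⟩ := h.surj b
    fin_cases i
    · show κ (gen M (v 0)) = ψ (gen M (v 0))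
      rw [k0, p0]
    · show κ (gen M (v 1)) = ψ (gen M (v 1))
      rw [k1, p1]
    · show κ (gen M (v 2)) = ψ (gen M (v 2))
      rw [k2, p2]
    · show κ (gen M (v 3)) = ψ (gen M (v 3))
      rw [k3, p3]
    · exact absurd rfl hb
  have hid : ∀ (τ : Art M →* Art M), τ (gen M (v 0)) = gen M (v 0) → τ (gen M (v 1)) = gen M (v 1) →
      τ (gen M (v 2)) = gen M (v 2) → τ (gen M (v 3)) = gen M (v 3) → ∀ {g : Art M}, g ∈ ap M (Set.univ \ {v 4}) → τ g = g := by
    intro τ t0 t1 t2 t3 g hg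
    refine map_congr τ (MonoidHom.id _) ?_ hg
    rintro b ⟨-, hb⟩
    obtain ⟨i, rfl⟩ := h.surj b
    fin_cases i
    · exact t0
    · exact t1
    · exact t2
    · exact t3
    · exact absurd rfl hb
  have hρ := fun {g : Art M} => hid ρ r0 r1 r2 r3 (g := g)
  have hσ := fun {g : Art M} => hid σ s0 s1 s2 s3 (g := g)
  have e1 : u = gen M (v 1) ^ k * y * gen M (v 1) ^ n := by
    have h1 := congrArg ρ hu
    rwa [hρ hu4, map_mul, map_mul, map_zpow, map_zpow, r4, hρ hy] at h1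
  have e2 : u = gen M (v 2) ^ k * y * gen M (v 2) ^ n := by
    have h1 := congrArg σ hu
    rwa [hσ hu4, map_mul, map_mul, map_zpow, map_zpow, s4, hσ hy] at h1
  have cc : Commute (gen M (v 1)) (gen M (v 2))⁻¹ := (show Commute (gen M (v 1)) (gen M (v 2)) from c12).inv_right
  have e3 : (gen M (v 1) * (gen M (v 2))⁻¹) ^ k * y = y * (gen M (v 1) * (gen M (v 2))⁻¹) ^ (-n) := by
    rw [cc.mul_zpow, cc.mul_zpow, ((cc.zpow_left k).zpow_right k).eq, ((cc.zpow_left (-n)).zpow_right (-n)).eq]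
    have h1 : gen M (v 1) ^ k * y = gen M (v 2) ^ k * y * gen M (v 2) ^ n * (gen M (v 1) ^ n)⁻¹ := by
      rw [← e2, e1]
      group
    rw [mul_assoc, h1]
    group
  -- the kernel
  have hsub : ∀ i ∈ (({v 2}ᶜ : Set B) \ {v 0, v 4}), Commute (gen M i) (gen M (v 1) * (gen M (v 2))⁻¹) := by
    rintro b ⟨-, hb⟩
    obtain ⟨i, rfl⟩ := h.surj b
    rw [Set.mem_insert_iff, Set.mem_singleton_iff, not_or] at hb
    have h0 : i ≠ 0 := fun e => hb.1 (congrArg v e)
    exact Commute.mul_right (h.co h0 (by decide)) (show Commute _ _ from h.co h0 (by decide)).inv_right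
  have hκy : κ y ∈ ap M (({v 2}ᶜ : Set B) \ {v 0, v 4}) := by
    rw [hκψ]
    exact hψy
  have hκκ : κ (κ y) = κ y := by
    have h1 : κ.comp κ = κ := by
      refine hom_ext h fun i => ?_
      fin_cases i
      · show κ (κ (gen M (v 0))) = κ (gen M (v 0))
        rw [k0, k0]
      · show κ (κ (gen M (v 1))) = κ (gen M (v 1))
        rw [k1, k1]
      · show κ (κ (gen M (v 2))) = κ (gen M (v 2))
        rw [k2, k1]
      · show κ (κ (gen M (v 3))) = κ (gen M (v 3))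
        rw [k3, k3]
      · show κ (κ (gen M (v 4))) = κ (gen M (v 4))
        rw [k4, k1]
    exact DFunLike.congr_fun h1 y
  have hcom : Commute (κ y) (gen M (v 1) * (gen M (v 2))⁻¹) := comm_mem hsub hκy
  have hf4 : y * (κ y)⁻¹ ∈ ap M ({v 4}ᶜ : Set B) := by
    rw [Set.compl_eq_univ_sdiff]
    refine mul_mem hy (inv_mem (ap_mono ?_ hκy))
    rintro b ⟨-, hb⟩
    exact ⟨trivial, fun e => hb (Or.inr e)⟩
  obtain ⟨j, hj⟩ := kernel h k0 k1 k2 k3 k4 hf4 (by rw [map_mul, map_inv, hκκ, mul_inv_cancel]) hk (l := -n) (by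
    rw [← mul_assoc, e3, mul_assoc, mul_assoc, ((hcom.zpow_right (-n)).inv_left).eq])
  have hy2 : y = (gen M (v 1) * (gen M (v 2))⁻¹) ^ j * κ y := by
    rw [← hj, inv_mul_cancel_right]
  rw [hy2]
  have m : ∀ i : Fin 5, i ≠ 0 → i ≠ 4 → gen M (v i) ∈ ap M (Set.univ \ {v 0, v 4}) := fun i h0 h4 =>
    gen_mem_ap ⟨trivial, fun e => e.elim (fun e => h0 (h.inj e)) fun e => h4 (h.inj e)⟩
  refine mul_mem (zpow_mem (mul_mem (m 1 (by decide) (by decide)) (inv_mem (m 2 (by decide) (by decide)))) j) (ap_mono ?_ hκy)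
  rintro b ⟨-, hb⟩
  exact ⟨trivial, hb⟩

/-- a permutation of the leaves -/
theorem Star.perm (h : Star M v) (e : Equiv.Perm (Fin 5)) (he : e 0 = 0) : Star M (v ∘ e) where
  surj := h.surj.comp e.surjective
  cen := by
    intro i hi
    show M (v (e 0)) (v (e i)) = 3
    rw [he]
    exact h.cen _ fun h1 => hi (e.injective (h1.trans he.symm))
  lea := fun i j hi hj hij => h.lea _ _ (fun h1 => hi (e.injective (h1.trans he.symm))) (fun h1 => hj (e.injective (h1.trans he.symm)))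
    fun h1 => hij (e.injective h1)

/-- no closed paths of length four for the star with four leaves -/
theorem gs_star (h : Star M v) {b c : B} (hbc : 3 ≤ M b c) : GS M Set.univ b c := by
  have key : ∀ i : Fin 5, i ≠ 0 → GS M Set.univ (v 0) (v i) := by
    intro i hi
    have h1 := gs_four (h.perm (Equiv.swap i 4) (Equiv.swap_apply_of_ne_of_ne hi.symm (by decide)))
    have e0 : (v ∘ Equiv.swap i 4) 0 = v 0 := congrArg v (Equiv.swap_apply_of_ne_of_ne hi.symm (by decide))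
    have e4 : (v ∘ Equiv.swap i 4) 4 = v i := congrArg v (Equiv.swap_apply_right i 4)
    rwa [e0, e4] at h1
  obtain ⟨i, rfl⟩ := h.surj b
  obtain ⟨j, rfl⟩ := h.surj c
  have hij : i ≠ j := by
    rintro rfl
    rw [M.diagonal] at hbc
    omega
  by_cases hi : i = 0
  · subst hi
    exact key j hij.symm
  by_cases hj : j = 0
  · subst hj
    exact gs_symm (key i hi)
  rw [h.lea i j hi hj hij] at hbc
  omega

end Pool.Agent.H88.DT
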