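import Mathlib

/-!
# [H88 DT FR] Free groups: elements which conjugate powers of a generator to powers of the generator

`mem_of_zpow_mul`: if `x` is a generator and `x ^ k * w = w * x ^ j`, `k ≠ 0`, then `w` is a power of `x`.
-/

set_option autoImplicit false

namespace Pool.Agent.H88.DT

open FreeGroup

variable {α : Type*} [DecidableEq α]

/-- the last letter is not a power of the generator -/
private def Lst (i : α) (w : FreeGroup α) : Prop := ∃ c, w.toWord.getLast? = some c ∧ c.1 ≠ i

private theorem lst_cons {i : α} (e : Bool) {w : FreeGroup α} (h : Lst i w) : Lst i (mk [(i, e)] * w) := by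
  obtain ⟨c, h1, h2⟩ := h
  refine ⟨c, ?_, h2⟩
  have h3 : (mk [(i, e)] * w).toWord = reduce ((i, e) :: w.toWord) := by
    rw [toWord_mul, toWord_mk, reduce_singleton, List.singleton_append]
  rw [h3, reduce.cons, reduce_toWord]
  cases hw : w.toWord with
  | nil =>
    rw [hw] at h1
    simp at h1
  | cons d L =>
    rw [hw] at h1
    simp only
    split_ifs with h4
    · cases L with
      | nil =>
        rw [List.getLast?_singleton, Option.some.injEq] at h1
        exact absurd (h1 ▸ h4.1.symm) h2
      | cons d' L' =>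
        rw [List.getLast?_cons_cons] at h1
        exact h1
    · rw [List.getLast?_cons_cons]
      exact h1

private theorem lst_pow {i : α} (n : ℕ) {w : FreeGroup α} (h : Lst i w) : Lst i (of i ^ n * w) := by
  induction n with
  | zero => rwa [pow_zero, one_mul]
  | succ n ih =>
    rw [pow_succ', mul_assoc]
    exact lst_cons true ih

private theorem lst_inv_pow {i : α} (n : ℕ) {w : FreeGroup α} (h : Lst i w) : Lst i ((of i)⁻¹ ^ n * w) := by
  induction n with
  | zero => rwa [pow_zero, one_mul]
  | succ n ih =>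
    rw [pow_succ', mul_assoc]
    have h1 : (of i)⁻¹ = mk [(i, false)] := by
      simp [of, inv_mk, invRev]
    rw [h1] at ih ⊢
    exact lst_cons false ih

private theorem lst_zpow {i : α} (n : ℤ) {w : FreeGroup α} (h : Lst i w) : Lst i (of i ^ n * w) := by
  obtain ⟨m, rfl | rfl⟩ := n.eq_nat_or_neg
  · rw [zpow_natCast]
    exact lst_pow m h
  · rw [zpow_neg, zpow_natCast, ← inv_pow]
    exact lst_inv_pow m h

private theorem not_lst {i : α} {n : ℕ} (hn : n ≠ 0) {w : FreeGroup α} (h : Lst i w) : ¬ Lst i (w * of i ^ n) := by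
  obtain ⟨c, h1, h2⟩ := h
  have hr : IsReduced (w.toWord ++ (of i ^ n).toWord) := by
    refine List.isChain_append.2 ⟨isReduced_toWord, isReduced_toWord, ?_⟩
    intro x hx y hy hxy
    rw [h1, Option.mem_some_iff] at hx
    rw [toWord_of_pow] at hy
    have h3 : y ∈ List.replicate n (i, true) := List.mem_of_mem_head? hy
    rw [List.mem_replicate] at h3
    rw [← hx, h3.2] at hxy
    exact absurd hxy h2
  have h3 : (w * of i ^ n).toWord = w.toWord ++ List.replicate n (i, true) := by
    rw [toWord_mul, hr.reduce_eq, toWord_of_pow]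
  rintro ⟨d, h4, h5⟩
  rw [h3] at h4
  obtain ⟨m, rfl⟩ : ∃ m, n = m + 1 := ⟨n - 1, by omega⟩
  rw [List.replicate_succ', ← List.append_assoc, List.getLast?_append, List.getLast?_singleton] at h4
  simp only [Option.some_or, Option.some.injEq] at h4
  rw [← h4] at h5
  exact h5 rfl

private theorem split (i : α) (L : List (α × Bool)) (hL : IsReduced L) :
    ∃ (w : FreeGroup α) (n : ℤ), mk L = w * of i ^ n ∧ (w = 1 ∨ Lst i w) := by
  induction L using List.reverseRecOn with
  | nil => exact ⟨1, 0, by simp [one_eq_mk], Or.inl rfl⟩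
  | append_singleton L c ih =>
    by_cases hc : c.1 = i
    · obtain ⟨w, n, h1, h2⟩ := ih ((List.isChain_append.mp hL).1)
      have h3 : mk (L ++ [c]) = mk L * mk [c] := by rw [mul_mk]
      obtain ⟨j, e⟩ := c
      obtain rfl : j = i := hc
      rw [h3, h1]
      cases e
      · refine ⟨w, n - 1, ?_, h2⟩
        have h4 : (of j)⁻¹ = mk [(j, false)] := by
          simp [of, inv_mk, invRev]
        rw [← h4, zpow_sub_one, mul_assoc]
      · refine ⟨w, n + 1, ?_, h2⟩
        rw [zpow_add_one, mul_assoc]
        rfl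
    · refine ⟨mk (L ++ [c]), 0, by rw [zpow_zero, mul_one], Or.inr ⟨c, ?_, hc⟩⟩
      rw [toWord_mk, hL.reduce_eq, List.getLast?_append, List.getLast?_singleton, Option.some_or]

private theorem aux {i : α} {k j : ℤ} (hk : k ≠ 0) {w : FreeGroup α} (hw : Lst i w) (hj : 0 ≤ j)
    (h : of i ^ k * w = w * of i ^ j) : False := by
  obtain ⟨n, rfl⟩ := Int.eq_ofNat_of_zero_le hj
  by_cases hn : n = 0
  · subst hn
    rw [Nat.cast_zero, zpow_zero, mul_one] at h
    have h1 : of i ^ k = (1 : FreeGroup α) := by
      have h2 : of i ^ k * w = 1 * w := by rw [h, one_mul]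
      exact mul_right_cancel h2
    have h2 : ∀ m : ℕ, m ≠ 0 → (of i : FreeGroup α) ^ m ≠ 1 := by
      intro m hm h3
      have h4 := congrArg toWord h3
      rw [toWord_of_pow, toWord_one] at h4
      exact hm (by simpa using h4)
    obtain ⟨m, rfl | rfl⟩ := k.eq_nat_or_neg
    · rw [zpow_natCast] at h1
      exact h2 m (by omega) h1
    · rw [zpow_neg, zpow_natCast, inv_eq_one] at h1
      exact h2 m (by omega) h1
  · have h1 := not_lst hn hw
    rw [zpow_natCast] at h
    rw [← h] at h1
    exact h1 (lst_zpow k hw)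

omit [DecidableEq α] in
theorem mem_of_zpow_mul (i : α) {k j : ℤ} (hk : k ≠ 0) {w : FreeGroup α} (h : of i ^ k * w = w * of i ^ j) :
    ∃ n : ℤ, w = of i ^ n := by
  classical
  obtain ⟨w', n, h1, h2⟩ := split i w.toWord isReduced_toWord
  rw [mk_toWord] at h1
  rcases h2 with rfl | h2
  · exact ⟨n, by rw [h1, one_mul]⟩
  exfalso
  have h3 : of i ^ k * w' = w' * of i ^ j := by
    have h4 : of i ^ k * w' * of i ^ n = w' * of i ^ j * of i ^ n := by
      rw [mul_assoc, ← h1, h, h1, mul_assoc, mul_assoc, ← zpow_add, ← zpow_add, add_comm]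
    exact mul_right_cancel h4
  rcases le_or_gt 0 j with hj | hj
  · exact aux hk h2 hj h3
  · refine aux (k := -k) (j := -j) (by omega) h2 (by omega) ?_
    rw [zpow_neg, zpow_neg, inv_mul_eq_iff_eq_mul, ← mul_assoc, h3, mul_assoc, mul_inv_cancel, mul_one]

end Pool.Agent.H88.DT
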