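import Pool.Agent.H54.TF.Trf
import Pool.Agent.H88.DT.Fr

/-!
# [H88 DT ACT] The star with four leaves: homomorphisms and the action on the free group with three generators
-/

set_option autoImplicit false

namespace Pool.Agent.H88.DT

open FreeGroup Pool.H8.CDW Pool.Agent.H52.PAG Pool.Agent.H75.INF Pool.Agent.H54.TF

/-- the star with the centre `v 0` and the leaves `v 1`, `v 2`, `v 3`, `v 4` -/
structure Star {B : Type} (M : CoxeterMatrix B) (v : Fin 5 → B) : Prop where
  surj : Function.Surjective v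
  cen : ∀ i, i ≠ 0 → M (v 0) (v i) = 3
  lea : ∀ i j, i ≠ 0 → j ≠ 0 → i ≠ j → M (v i) (v j) = 2

variable {B : Type} {M : CoxeterMatrix B} {v : Fin 5 → B}

theorem Star.inj (h : Star M v) : Function.Injective v := by
  intro i j hij
  by_contra hne
  have h1 := M.diagonal (v i)
  by_cases hi : i = 0
  · have h2 := h.cen j (fun e => hne (hi.trans e.symm))
    rw [← hij, hi, ← hi, h1] at h2
    omega
  · by_cases hj : j = 0
    · have h2 := h.cen i hi
      rw [← hj, ← hij, h1] at h2
      omega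
    · have h2 := h.lea i j hi hj hne
      rw [← hij, h1] at h2
      omega

theorem alt2 {G : Type*} [Monoid G] (x y : G) : alt x y 2 = x * y := by
  simp [alt]

theorem alt3 {G : Type*} [Monoid G] (x y : G) : alt x y 3 = x * y * x := by
  simp [alt, mul_assoc]

theorem Star.br (h : Star M v) {i : Fin 5} (hi : i ≠ 0) :
    gen M (v 0) * gen M (v i) * gen M (v 0) = gen M (v i) * gen M (v 0) * gen M (v i) := by
  have h1 := gen_rel (M := M) (i := v 0) (j := v i) (by rw [h.cen i hi]; omega)
  rwa [h.cen i hi, alt3, alt3] at h1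

theorem Star.co (h : Star M v) {i j : Fin 5} (hi : i ≠ 0) (hj : j ≠ 0) :
    gen M (v i) * gen M (v j) = gen M (v j) * gen M (v i) := by
  by_cases hij : i = j
  · rw [hij]
  · have h1 := gen_rel (M := M) (i := v i) (j := v j) (by rw [h.lea i j hi hj hij]; omega)
    rwa [h.lea i j hi hj hij, alt2, alt2] at h1

theorem Star.hom (h : Star M v) {G : Type*} [Group G] (F : Fin 5 → G) (h0 : ∀ i, i ≠ 0 → F 0 * F i * F 0 = F i * F 0 * F i)
    (h1 : ∀ i j, i ≠ 0 → j ≠ 0 → F i * F j = F j * F i) : ∃ φ : Art M →* G, ∀ i, φ (gen M (v i)) = F i := by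
  obtain ⟨e, he⟩ : ∃ e : Fin 5 ≃ B, ∀ i, e i = v i := ⟨Equiv.ofBijective v ⟨h.inj, h.surj⟩, fun _ => rfl⟩
  have he' : ∀ i, e.symm (v i) = i := fun i => by rw [← he, e.symm_apply_apply]
  refine ⟨lift (fun b => F (e.symm b)) ?_, fun i => ?_⟩
  · intro a b _
    obtain ⟨i, rfl⟩ := h.surj a
    obtain ⟨j, rfl⟩ := h.surj b
    show alt (F (e.symm (v i))) (F (e.symm (v j))) _ = alt (F (e.symm (v j))) (F (e.symm (v i))) _
    rw [he', he']
    by_cases hij : i = j
    · rw [hij]
    by_cases hi : i = 0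
    · subst hi
      rw [h.cen j (fun e => hij e.symm), alt3, alt3]
      exact h0 j fun e => hij e.symm
    by_cases hj : j = 0
    · subst hj
      rw [M.symmetric, h.cen i hi, alt3, alt3]
      exact (h0 i hi).symm
    rw [h.lea i j hi hj hij, alt2, alt2]
    exact h1 i j hi hj
  · rw [lift_gen, he']

theorem Star.hom5 (h : Star M v) {G : Type*} [Group G] (a b c d e : G) (hb : a * b * a = b * a * b) (hc : a * c * a = c * a * c)
    (hd : a * d * a = d * a * d) (he : a * e * a = e * a * e) (bc : b * c = c * b) (bd : b * d = d * b) (be : b * e = e * b)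
    (cd : c * d = d * c) (ce : c * e = e * c) (de : d * e = e * d) : ∃ φ : Art M →* G, φ (gen M (v 0)) = a ∧
    φ (gen M (v 1)) = b ∧ φ (gen M (v 2)) = c ∧ φ (gen M (v 3)) = d ∧ φ (gen M (v 4)) = e := by
  obtain ⟨φ, hφ⟩ := h.hom ![a, b, c, d, e] (by
    intro i hi
    fin_cases i
    · exact absurd rfl hi
    · exact hb
    · exact hc
    · exact hd
    · exact he) (by
    intro i j hi hj
    fin_cases i <;> fin_cases j <;>
      first
        | exact absurd rfl hi
        | exact absurd rfl hj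
        | rfl
        | exact bc
        | exact bd
        | exact be
        | exact cd
        | exact ce
        | exact de
        | exact bc.symm
        | exact bd.symm
        | exact be.symm
        | exact cd.symm
        | exact ce.symm
        | exact de.symm)
  exact ⟨φ, hφ 0, hφ 1, hφ 2, hφ 3, hφ 4⟩

theorem hom_ext (h : Star M v) {G : Type*} [Group G] {f g : Art M →* G} (hfg : ∀ i, f (gen M (v i)) = g (gen M (v i))) :
    f = g := by
  refine art_ext fun b => ?_
  obtain ⟨i, rfl⟩ := h.surj b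
  exact hfg i

/-- the free group -/
abbrev F3 := FreeGroup (Fin 3)

private theorem aut_ext {f g : MulAut F3} (h0 : f (of 0) = g (of 0)) (h1 : f (of 1) = g (of 1)) (h2 : f (of 2) = g (of 2)) :
    f = g := by
  have h : f.toMonoidHom = g.toMonoidHom := by
    refine FreeGroup.ext_hom _ _ fun i => ?_
    fin_cases i
    · exact h0
    · exact h1
    · exact h2
  exact MulEquiv.ext fun x => DFunLike.congr_fun h x

private theorem end_ext {f : F3 →* F3} (h0 : f (of 0) = of 0) (h1 : f (of 1) = of 1) (h2 : f (of 2) = of 2) :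
    f = MonoidHom.id _ := by
  refine FreeGroup.ext_hom _ _ fun i => ?_
  fin_cases i
  · exact h0
  · exact h1
  · exact h2

private theorem exists_aut (a b c a' b' c' : F3) (h0 : FreeGroup.lift ![a, b, c] a' = of 0)
    (h1 : FreeGroup.lift ![a, b, c] b' = of 1) (h2 : FreeGroup.lift ![a, b, c] c' = of 2)
    (k0 : FreeGroup.lift ![a', b', c'] a = of 0) (k1 : FreeGroup.lift ![a', b', c'] b = of 1)
    (k2 : FreeGroup.lift ![a', b', c'] c = of 2) :
    ∃ f : MulAut F3, f (of 0) = a ∧ f (of 1) = b ∧ f (of 2) = c := by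
  refine ⟨MonoidHom.toMulEquiv (FreeGroup.lift ![a, b, c]) (FreeGroup.lift ![a', b', c']) ?_ ?_, ?_, ?_, ?_⟩
  · refine end_ext ?_ ?_ ?_
    · show FreeGroup.lift ![a', b', c'] (FreeGroup.lift ![a, b, c] (of 0)) = of 0
      rw [lift_apply_of]
      exact k0
    · show FreeGroup.lift ![a', b', c'] (FreeGroup.lift ![a, b, c] (of 1)) = of 1
      rw [lift_apply_of]
      exact k1
    · show FreeGroup.lift ![a', b', c'] (FreeGroup.lift ![a, b, c] (of 2)) = of 2
      rw [lift_apply_of]
      exact k2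
  · refine end_ext ?_ ?_ ?_
    · show FreeGroup.lift ![a, b, c] (FreeGroup.lift ![a', b', c'] (of 0)) = of 0
      rw [lift_apply_of]
      exact h0
    · show FreeGroup.lift ![a, b, c] (FreeGroup.lift ![a', b', c'] (of 1)) = of 1
      rw [lift_apply_of]
      exact h1
    · show FreeGroup.lift ![a, b, c] (FreeGroup.lift ![a', b', c'] (of 2)) = of 2
      rw [lift_apply_of]
      exact h2
  · show FreeGroup.lift ![a, b, c] (of 0) = a
    rw [lift_apply_of]
    rfl
  · show FreeGroup.lift ![a, b, c] (of 1) = b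
    rw [lift_apply_of]
    rfl
  · show FreeGroup.lift ![a, b, c] (of 2) = c
    rw [lift_apply_of]
    rfl

private theorem exists_t1 : ∃ f : MulAut F3, f (of 0) = of 0 ∧ f (of 1) = of 1 * (of 0)⁻¹ ∧ f (of 2) = of 2 * (of 0)⁻¹ :=
  exists_aut _ _ _ (of 0) (of 1 * of 0) (of 2 * of 0) (by simp) (by simp) (by simp) (by simp) (by simp) (by simp)

private theorem exists_tm : ∃ f : MulAut F3, f (of 0) = of 1 ∧ f (of 1) = of 1 * (of 0)⁻¹ * of 1 ∧ f (of 2) = of 2 :=
  exists_aut _ _ _ (of 0 * (of 1)⁻¹ * of 0) (of 0) (of 2) (by simp; try group) (by simp; try group) (by simp; try group)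
    (by simp; try group) (by simp; try group) (by simp; try group)

private theorem exists_t3 : ∃ f : MulAut F3, f (of 0) = of 0 ∧ f (of 1) = of 2 ∧ f (of 2) = of 2 * (of 1)⁻¹ * of 2 :=
  exists_aut _ _ _ (of 0) (of 1 * (of 2)⁻¹ * of 1) (of 1) (by simp; try group) (by simp; try group) (by simp; try group)
    (by simp; try group) (by simp; try group) (by simp; try group)

/-- the action -/
theorem exists_act (h : Star M v) : ∃ (θ : Art M →* MulAut F3) (t c u : MulAut F3), θ (gen M (v 0)) = c ∧ θ (gen M (v 1)) = t ∧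
    θ (gen M (v 2)) = t ∧ θ (gen M (v 3)) = u ∧ θ (gen M (v 4)) = t ∧ (t (of 0) = of 0 ∧ t (of 1) = of 1 * (of 0)⁻¹ ∧
    t (of 2) = of 2 * (of 0)⁻¹) ∧ (c (of 0) = of 1 ∧ c (of 1) = of 1 * (of 0)⁻¹ * of 1 ∧ c (of 2) = of 2) ∧
    (u (of 0) = of 0 ∧ u (of 1) = of 2 ∧ u (of 2) = of 2 * (of 1)⁻¹ * of 2) := by
  obtain ⟨t, t0, t1, t2⟩ := exists_t1
  obtain ⟨c, c0, c1, c2⟩ := exists_tm
  obtain ⟨u, u0, u1, u2⟩ := exists_t3
  have h1 : c * t * c = t * c * t := by
    refine aut_ext ?_ ?_ ?_ <;>
    simp only [MulAut.mul_apply, _root_.map_mul, _root_.map_inv, t0, t1, t2, c0, c1, c2] <;> group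
  have h2 : c * u * c = u * c * u := by
    refine aut_ext ?_ ?_ ?_ <;>
    simp only [MulAut.mul_apply, _root_.map_mul, _root_.map_inv, u0, u1, u2, c0, c1, c2] <;> group
  have h3 : t * u = u * t := by
    refine aut_ext ?_ ?_ ?_ <;>
    simp only [MulAut.mul_apply, _root_.map_mul, _root_.map_inv, u0, u1, u2, t0, t1, t2] <;> group
  obtain ⟨θ, hθ⟩ := h.hom ![c, t, t, u, t] (by
    intro i hi
    fin_cases i
    · exact absurd rfl hi
    · exact h1
    · exact h1
    · exact h2
    · exact h1) (by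
    intro i j hi hj
    fin_cases i <;> fin_cases j <;> first | exact absurd rfl hi | exact absurd rfl hj | rfl | exact h3 | exact h3.symm)
  exact ⟨θ, t, c, u, hθ 0, hθ 1, hθ 2, hθ 3, hθ 4, ⟨t0, t1, t2⟩, ⟨c0, c1, c2⟩, ⟨u0, u1, u2⟩⟩

end Pool.Agent.H88.DT
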