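import Pool.Agent.H88.DT.Act

/-!
# [H88 DT KER] The star with four leaves: the kernel of the identification of two leaves
-/

set_option autoImplicit false

namespace Pool.Agent.H88.DT

open FreeGroup Pool.H8.CDW Pool.Agent.H52.PAG Pool.Agent.H75.INF Pool.Agent.H54.TF

section rel

variable {G : Type*} [Group G] {m p q r : G} (hp : m * p * m = p * m * p) (hq : m * q * m = q * m * q) (hr : m * r * m = r * m * r)
  (pq : p * q = q * p) (pr : p * r = r * p) (qr : q * r = r * q)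

include pq in
private theorem r1 : p * (p * q⁻¹) * p⁻¹ = p * q⁻¹ := by
  calc p * (p * q⁻¹) * p⁻¹ = p * (q⁻¹ * (q * p)) * q⁻¹ * p⁻¹ := by group
    _ = p * (q⁻¹ * (p * q)) * q⁻¹ * p⁻¹ := by rw [pq]
    _ = p * q⁻¹ := by group

include pr qr in
private theorem r6 : r * (p * q⁻¹) * r⁻¹ = p * q⁻¹ := by
  calc r * (p * q⁻¹) * r⁻¹ = (r * p) * q⁻¹ * r⁻¹ := by group
    _ = p * r * q⁻¹ * r⁻¹ := by rw [← pr]
    _ = p * (q⁻¹ * (q * r) * q⁻¹) * r⁻¹ := by group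
    _ = p * (q⁻¹ * (r * q) * q⁻¹) * r⁻¹ := by rw [qr]
    _ = p * q⁻¹ := by group

include hq in
private theorem rq : m * q⁻¹ * m⁻¹ = q⁻¹ * m⁻¹ * q := by
  calc m * q⁻¹ * m⁻¹ = q⁻¹ * m⁻¹ * (m * q * m) * q⁻¹ * m⁻¹ := by group
    _ = q⁻¹ * m⁻¹ * (q * m * q) * q⁻¹ * m⁻¹ := by rw [hq]
    _ = q⁻¹ * m⁻¹ * q := by group

include hp hq in
private theorem r2 : p * (m * (p * q⁻¹) * m⁻¹) * p⁻¹ = (m * (p * q⁻¹) * m⁻¹) * (p * q⁻¹)⁻¹ := by
  calc p * (m * (p * q⁻¹) * m⁻¹) * p⁻¹ = (p * m * p) * q⁻¹ * m⁻¹ * p⁻¹ := by group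
    _ = (m * p * m) * q⁻¹ * m⁻¹ * p⁻¹ := by rw [hp]
    _ = m * p * (m * q⁻¹ * m⁻¹) * p⁻¹ := by group
    _ = m * p * (q⁻¹ * m⁻¹ * q) * p⁻¹ := by rw [rq hq]
    _ = (m * (p * q⁻¹) * m⁻¹) * (p * q⁻¹)⁻¹ := by group

include hp hq pr qr in
private theorem r3 : p * (r * (m * (p * q⁻¹) * m⁻¹) * r⁻¹) * p⁻¹ = (r * (m * (p * q⁻¹) * m⁻¹) * r⁻¹) * (p * q⁻¹)⁻¹ := by
  calc p * (r * (m * (p * q⁻¹) * m⁻¹) * r⁻¹) * p⁻¹ = (p * r) * (m * (p * q⁻¹) * m⁻¹) * (p * r)⁻¹ := by group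
    _ = (r * p) * (m * (p * q⁻¹) * m⁻¹) * (r * p)⁻¹ := by rw [pr]
    _ = r * (p * (m * (p * q⁻¹) * m⁻¹) * p⁻¹) * r⁻¹ := by group
    _ = r * ((m * (p * q⁻¹) * m⁻¹) * (p * q⁻¹)⁻¹) * r⁻¹ := by rw [r2 hp hq]
    _ = (r * (m * (p * q⁻¹) * m⁻¹) * r⁻¹) * (r * (p * q⁻¹) * r⁻¹)⁻¹ := by group
    _ = (r * (m * (p * q⁻¹) * m⁻¹) * r⁻¹) * (p * q⁻¹)⁻¹ := by rw [r6 pr qr]

include hq in
private theorem rc : m⁻¹ * q * m = q * m * q⁻¹ := by
  calc m⁻¹ * q * m = m⁻¹ * (q * m * q) * q⁻¹ := by group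
    _ = m⁻¹ * (m * q * m) * q⁻¹ := by rw [hq]
    _ = q * m * q⁻¹ := by group

include hp hq pq in
private theorem r4 : m * (m * (p * q⁻¹) * m⁻¹) * m⁻¹ =
    (m * (p * q⁻¹) * m⁻¹) * (p * q⁻¹)⁻¹ * (m * (p * q⁻¹) * m⁻¹) := by
  symm
  calc (m * (p * q⁻¹) * m⁻¹) * (p * q⁻¹)⁻¹ * (m * (p * q⁻¹) * m⁻¹)
      = m * p * q⁻¹ * (m⁻¹ * q * m) * (m⁻¹ * p * m)⁻¹ * p * q⁻¹ * m⁻¹ := by group
    _ = m * p * q⁻¹ * (q * m * q⁻¹) * (p * m * p⁻¹)⁻¹ * p * q⁻¹ * m⁻¹ := by rw [rc hq, rc hp]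
    _ = m * p * m * (q⁻¹ * p) * (m * q * m)⁻¹ := by group
    _ = m * p * m * (q⁻¹ * p) * (q * m * q)⁻¹ := by rw [hq]
    _ = m * p * m * (q⁻¹ * (p * q) * q⁻¹) * (q * m * q)⁻¹ := by group
    _ = m * p * m * (q⁻¹ * (q * p) * q⁻¹) * (q * m * q)⁻¹ := by rw [pq]
    _ = m * (p * m * p) * q⁻¹ * q⁻¹ * m⁻¹ * q⁻¹ := by group
    _ = m * (m * p * m) * q⁻¹ * q⁻¹ * m⁻¹ * q⁻¹ := by rw [hp]
    _ = m * m * p * (m * q⁻¹ * m⁻¹) * (m * q⁻¹ * m⁻¹) * q⁻¹ := by group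
    _ = m * m * p * (q⁻¹ * m⁻¹ * q) * (q⁻¹ * m⁻¹ * q) * q⁻¹ := by rw [rq hq]
    _ = m * (m * (p * q⁻¹) * m⁻¹) * m⁻¹ := by group

include hr pr qr in
private theorem r5 : m * (r * (m * (p * q⁻¹) * m⁻¹) * r⁻¹) * m⁻¹ = r * (m * (p * q⁻¹) * m⁻¹) * r⁻¹ := by
  calc m * (r * (m * (p * q⁻¹) * m⁻¹) * r⁻¹) * m⁻¹ = (m * r * m) * (p * q⁻¹) * (m * r * m)⁻¹ := by group
    _ = (r * m * r) * (p * q⁻¹) * (r * m * r)⁻¹ := by rw [hr]
    _ = r * m * (r * (p * q⁻¹) * r⁻¹) * m⁻¹ * r⁻¹ := by group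
    _ = r * m * (p * q⁻¹) * m⁻¹ * r⁻¹ := by rw [r6 pr qr]
    _ = r * (m * (p * q⁻¹) * m⁻¹) * r⁻¹ := by group

include hp hq hr pq pr qr in
private theorem r7 : r * (r * (m * (p * q⁻¹) * m⁻¹) * r⁻¹) * r⁻¹ =
    (r * (m * (p * q⁻¹) * m⁻¹) * r⁻¹) * (m * (p * q⁻¹) * m⁻¹)⁻¹ * (r * (m * (p * q⁻¹) * m⁻¹) * r⁻¹) := by
  obtain ⟨a, ha⟩ : ∃ a, a = p * q⁻¹ := ⟨_, rfl⟩
  obtain ⟨b, hb⟩ : ∃ b, b = m * a * m⁻¹ := ⟨_, rfl⟩
  obtain ⟨c, hc⟩ : ∃ c, c = r * b * r⁻¹ := ⟨_, rfl⟩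
  have e6 := r6 pr qr
  have e5 := r5 hr pr qr
  have e4 := r4 hp hq pq
  rw [← ha, ← hb] at e4
  rw [← ha, ← hb, ← hc] at e5
  rw [← ha] at e6
  rw [← ha, ← hb, ← hc]
  have e1 : (m * r) * a * (m * r)⁻¹ = b := by
    calc (m * r) * a * (m * r)⁻¹ = m * (r * a * r⁻¹) * m⁻¹ := by group
      _ = b := by rw [e6, hb]
  have e2 : (m * r) * b * (m * r)⁻¹ = c := by
    calc (m * r) * b * (m * r)⁻¹ = m * (r * b * r⁻¹) * m⁻¹ := by group
      _ = c := by rw [← hc, e5]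
  have e3 : (m * r) * m * (m * r)⁻¹ = r := by
    calc (m * r) * m * (m * r)⁻¹ = (m * r * m) * r⁻¹ * m⁻¹ := by group
      _ = (r * m * r) * r⁻¹ * m⁻¹ := by rw [hr]
      _ = r := by group
  calc r * c * r⁻¹ = ((m * r) * m * (m * r)⁻¹) * ((m * r) * b * (m * r)⁻¹) * ((m * r) * m * (m * r)⁻¹)⁻¹ := by rw [e2, e3]
    _ = (m * r) * (m * b * m⁻¹) * (m * r)⁻¹ := by group
    _ = (m * r) * (b * a⁻¹ * b) * (m * r)⁻¹ := by rw [e4]
    _ = ((m * r) * b * (m * r)⁻¹) * ((m * r) * a * (m * r)⁻¹)⁻¹ * ((m * r) * b * (m * r)⁻¹) := by group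
    _ = c * b⁻¹ * c := by rw [e1, e2]

end rel

variable {B : Type} {M : CoxeterMatrix B} {v : Fin 5 → B}

/-- the homomorphism which sends the leaves `2` and `4` to the leaf `1` -/
private def IsKap (v : Fin 5 → B) (κ : Art M →* Art M) : Prop := κ (gen M (v 0)) = gen M (v 0) ∧ κ (gen M (v 1)) = gen M (v 1) ∧
  κ (gen M (v 2)) = gen M (v 1) ∧ κ (gen M (v 3)) = gen M (v 3) ∧ κ (gen M (v 4)) = gen M (v 1)

/-- the homomorphism from the free group -/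
private theorem exists_psi (h : Star M v) {κ : Art M →* Art M} (hκ : IsKap v κ) (θ : Art M →* MulAut F3) (t c u : MulAut F3)
    (g0 : θ (gen M (v 0)) = c) (g1 : θ (gen M (v 1)) = t) (g2 : θ (gen M (v 2)) = t) (g3 : θ (gen M (v 3)) = u)
    (g4 : θ (gen M (v 4)) = t)
    (ht : t (of 0) = of 0 ∧ t (of 1) = of 1 * (of 0)⁻¹ ∧ t (of 2) = of 2 * (of 0)⁻¹)
    (hc : c (of 0) = of 1 ∧ c (of 1) = of 1 * (of 0)⁻¹ * of 1 ∧ c (of 2) = of 2)
    (hu : u (of 0) = of 0 ∧ u (of 1) = of 2 ∧ u (of 2) = of 2 * (of 1)⁻¹ * of 2) :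
    ∃ fn : F3 →* Art M, fn (of 0) = gen M (v 1) * (gen M (v 2))⁻¹ ∧ ∀ g n, fn (θ g n) = κ g * fn n * (κ g)⁻¹ := by
  obtain ⟨ht0, ht1, ht2⟩ := ht
  obtain ⟨hc0, hc1, hc2⟩ := hc
  obtain ⟨hu0, hu1, hu2⟩ := hu
  obtain ⟨k0, k1, k2, k3, k4⟩ := hκ
  have b1 := h.br (i := 1) (by decide)
  have b2 := h.br (i := 2) (by decide)
  have b3 := h.br (i := 3) (by decide)
  have c12 := h.co (i := 1) (j := 2) (by decide) (by decide)
  have c13 := h.co (i := 1) (j := 3) (by decide) (by decide)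
  have c23 := h.co (i := 2) (j := 3) (by decide) (by decide)
  obtain ⟨a0, ha0⟩ : ∃ a, a = gen M (v 1) * (gen M (v 2))⁻¹ := ⟨_, rfl⟩
  obtain ⟨a1, ha1⟩ : ∃ a, a = gen M (v 0) * a0 * (gen M (v 0))⁻¹ := ⟨_, rfl⟩
  obtain ⟨a2, ha2⟩ : ∃ a, a = gen M (v 3) * a1 * (gen M (v 3))⁻¹ := ⟨_, rfl⟩
  have R1 := r1 c12
  have R2 := r2 b1 b2
  have R3 := r3 b1 b2 c13 c23
  have R4 := r4 b1 b2 c12
  have R5 := r5 b3 c13 c23
  have R6 := r6 c13 c23
  have R7 := r7 b1 b2 b3 c12 c13 c23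
  rw [← ha0] at R1 R6
  rw [← ha0, ← ha1] at R2 R4
  rw [← ha0, ← ha1, ← ha2] at R3 R5 R7
  obtain ⟨fn, hfn⟩ : ∃ fn : F3 →* Art M, ∀ i, fn (of i) = ![a0, a1, a2] i := ⟨FreeGroup.lift ![a0, a1, a2], fun i => lift_apply_of⟩
  have f0 : fn (of 0) = a0 := hfn 0
  have f1 : fn (of 1) = a1 := hfn 1
  have f2 : fn (of 2) = a2 := hfn 2
  -- a generator
  have key : ∀ (s : Art M) (T : MulAut F3), θ s = T → fn (T (of 0)) = κ s * a0 * (κ s)⁻¹ → fn (T (of 1)) = κ s * a1 * (κ s)⁻¹ →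
      fn (T (of 2)) = κ s * a2 * (κ s)⁻¹ → ∀ n, fn (θ s n) = κ s * fn n * (κ s)⁻¹ := by
    intro s T hT e0 e1 e2 n
    rw [hT]
    have h1 : fn.comp T.toMonoidHom = (MulAut.conj (κ s)).toMonoidHom.comp fn := by
      refine FreeGroup.ext_hom _ _ fun i => ?_
      fin_cases i
      · show fn (T (of 0)) = κ s * fn (of 0) * (κ s)⁻¹
        rw [e0, f0]
      · show fn (T (of 1)) = κ s * fn (of 1) * (κ s)⁻¹
        rw [e1, f1]
      · show fn (T (of 2)) = κ s * fn (of 2) * (κ s)⁻¹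
        rw [e2, f2]
    exact DFunLike.congr_fun h1 n
  have kt : ∀ s : Art M, κ s = gen M (v 1) → θ s = t → ∀ n, fn (θ s n) = κ s * fn n * (κ s)⁻¹ := by
    intro s hs hs'
    refine key s t hs' ?_ ?_ ?_ <;> rw [hs]
    · rw [ht0, f0, R1]
    · rw [ht1, _root_.map_mul, _root_.map_inv, f0, f1, R2]
    · rw [ht2, _root_.map_mul, _root_.map_inv, f0, f2, R3]
  have kg : ∀ b n, fn (θ (gen M b) n) = κ (gen M b) * fn n * (κ (gen M b))⁻¹ := by
    intro b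
    obtain ⟨i, rfl⟩ := h.surj b
    fin_cases i
    · refine key _ c g0 ?_ ?_ ?_ <;> show _ = κ (gen M (v 0)) * _ * (κ (gen M (v 0)))⁻¹ <;> rw [k0]
      · rw [hc0, f1, ha1]
      · rw [hc1, _root_.map_mul, _root_.map_mul, _root_.map_inv, f0, f1, R4]
      · rw [hc2, f2, R5]
    · exact kt _ k1 g1
    · exact kt _ k2 g2
    · refine key _ u g3 ?_ ?_ ?_ <;> show _ = κ (gen M (v 3)) * _ * (κ (gen M (v 3)))⁻¹ <;> rw [k3]
      · rw [hu0, f0, R6]
      · rw [hu1, f2, ha2]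
      · rw [hu2, _root_.map_mul, _root_.map_mul, _root_.map_inv, f1, f2, R7]
    · exact kt _ k4 g4
  refine ⟨fn, by rw [f0, ha0], fun g => ?_⟩
  refine art_induction (P := fun g => ∀ n, fn (θ g n) = κ g * fn n * (κ g)⁻¹) ?_ ?_ ?_ g
  · intro n
    rw [_root_.map_one, _root_.map_one, MulAut.one_apply]
    group
  · intro x i hx n
    rw [_root_.map_mul, _root_.map_mul, MulAut.mul_apply, hx, kg]
    group
  · intro x i hx n
    have h1 := kg i (θ (gen M i)⁻¹ n)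
    have h2 : θ (gen M i) (θ (gen M i)⁻¹ n) = n := by
      rw [← MulAut.mul_apply, ← _root_.map_mul, mul_inv_cancel, _root_.map_one, MulAut.one_apply]
    rw [h2] at h1
    rw [_root_.map_mul, _root_.map_mul, MulAut.mul_apply, hx, h1, _root_.map_inv κ]
    group

/-- the kernel of the identification of two leaves -/
theorem kernel (h : Star M v) {κ : Art M →* Art M} (k0 : κ (gen M (v 0)) = gen M (v 0)) (k1 : κ (gen M (v 1)) = gen M (v 1))
    (k2 : κ (gen M (v 2)) = gen M (v 1)) (k3 : κ (gen M (v 3)) = gen M (v 3)) (k4 : κ (gen M (v 4)) = gen M (v 1))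
    {f : Art M} (hf : f ∈ ap M ({v 4}ᶜ : Set B)) (hκf : κ f = 1) {k l : ℤ} (hk : k ≠ 0)
    (he : (gen M (v 1) * (gen M (v 2))⁻¹) ^ k * f = f * (gen M (v 1) * (gen M (v 2))⁻¹) ^ l) :
    ∃ n : ℤ, f = (gen M (v 1) * (gen M (v 2))⁻¹) ^ n := by
  obtain ⟨θ, t, c, u, g0, g1, g2, g3, g4, ht, hc, hu⟩ := exists_act h
  obtain ⟨fn, f0, hfn⟩ := exists_psi h ⟨k0, k1, k2, k3, k4⟩ θ t c u g0 g1 g2 g3 g4 ht hc hu
  have b1 := h.br (i := 1) (by decide)
  have b3 := h.br (i := 3) (by decide)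
  have c13 := h.co (i := 1) (j := 3) (by decide) (by decide)
  have e0 : (SemidirectProduct.inr (gen M (v 0)) * SemidirectProduct.inr (gen M (v 1)) * SemidirectProduct.inr (gen M (v 0)) :
      F3 ⋊[θ] Art M) = SemidirectProduct.inr (gen M (v 1)) * SemidirectProduct.inr (gen M (v 0)) *
        SemidirectProduct.inr (gen M (v 1)) := by
    rw [← _root_.map_mul, ← _root_.map_mul, b1, _root_.map_mul, _root_.map_mul]
  have e0' : (SemidirectProduct.inr (gen M (v 0)) * SemidirectProduct.inr (gen M (v 3)) * SemidirectProduct.inr (gen M (v 0)) :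
      F3 ⋊[θ] Art M) = SemidirectProduct.inr (gen M (v 3)) * SemidirectProduct.inr (gen M (v 0)) *
        SemidirectProduct.inr (gen M (v 3)) := by
    rw [← _root_.map_mul, ← _root_.map_mul, b3, _root_.map_mul, _root_.map_mul]
  have e1 : (SemidirectProduct.inr (gen M (v 1)) * (SemidirectProduct.inl (of 0)⁻¹ * SemidirectProduct.inr (gen M (v 1))) :
      F3 ⋊[θ] Art M) = SemidirectProduct.inl (of 0)⁻¹ * SemidirectProduct.inr (gen M (v 1)) *
        SemidirectProduct.inr (gen M (v 1)) := by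
    refine SemidirectProduct.ext ?_ ?_
    · simp [g1, ht.1]
    · simp
  have e2 : (SemidirectProduct.inr (gen M (v 3)) * (SemidirectProduct.inl (of 0)⁻¹ * SemidirectProduct.inr (gen M (v 1))) :
      F3 ⋊[θ] Art M) = SemidirectProduct.inl (of 0)⁻¹ * SemidirectProduct.inr (gen M (v 1)) *
        SemidirectProduct.inr (gen M (v 3)) := by
    refine SemidirectProduct.ext ?_ ?_
    · simp [g3, hu.1]
    · simp [c13]
  have e3 : (SemidirectProduct.inr (gen M (v 1)) * SemidirectProduct.inr (gen M (v 3)) : F3 ⋊[θ] Art M) =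
      SemidirectProduct.inr (gen M (v 3)) * SemidirectProduct.inr (gen M (v 1)) := by
    rw [← _root_.map_mul, c13, _root_.map_mul]
  have e4 : (SemidirectProduct.inr (gen M (v 0)) * (SemidirectProduct.inl (of 0)⁻¹ * SemidirectProduct.inr (gen M (v 1))) *
      SemidirectProduct.inr (gen M (v 0)) : F3 ⋊[θ] Art M) = SemidirectProduct.inl (of 0)⁻¹ *
        SemidirectProduct.inr (gen M (v 1)) * SemidirectProduct.inr (gen M (v 0)) *
        (SemidirectProduct.inl (of 0)⁻¹ * SemidirectProduct.inr (gen M (v 1))) := by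
    refine SemidirectProduct.ext ?_ ?_
    · simp [g0, g1, ht.1, ht.2.1, hc.1]
    · simp [b1]
  obtain ⟨Φ, p0, p1, p2, p3, p4⟩ := h.hom5 (G := F3 ⋊[θ] Art M) (SemidirectProduct.inr (gen M (v 0)))
    (SemidirectProduct.inr (gen M (v 1))) (SemidirectProduct.inl (of 0)⁻¹ * SemidirectProduct.inr (gen M (v 1)))
    (SemidirectProduct.inr (gen M (v 3))) (SemidirectProduct.inr (gen M (v 1))) e0 e4 e0' e0 e1 e3 rfl e2.symm e1.symm e3.symm
  -- the right component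
  have hr : ∀ g, (Φ g).right = κ g := by
    have h1 : (SemidirectProduct.rightHom : F3 ⋊[θ] Art M →* Art M).comp Φ = κ := by
      refine hom_ext h fun i => ?_
      fin_cases i
      · show (Φ (gen M (v 0))).right = κ (gen M (v 0))
        rw [p0, k0, SemidirectProduct.right_inr]
      · show (Φ (gen M (v 1))).right = κ (gen M (v 1))
        rw [p1, k1, SemidirectProduct.right_inr]
      · show (Φ (gen M (v 2))).right = κ (gen M (v 2))
        rw [p2, k2]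
        simp
      · show (Φ (gen M (v 3))).right = κ (gen M (v 3))
        rw [p3, k3, SemidirectProduct.right_inr]
      · show (Φ (gen M (v 4))).right = κ (gen M (v 4))
        rw [p4, k4, SemidirectProduct.right_inr]
    exact fun g => DFunLike.congr_fun h1 g
  -- the way back
  let Ψ : F3 ⋊[θ] Art M →* Art M := SemidirectProduct.lift fn κ (by
    intro g
    refine MonoidHom.ext fun n => ?_
    exact hfn g n)
  have hΨ : ∀ z, Ψ z = fn z.left * κ z.right := fun z => rfl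
  have κκ : ∀ g, κ (κ g) = κ g := by
    have h1 : κ.comp κ = κ := by
      refine hom_ext h fun i => ?_
      fin_cases i
      · show κ (κ (gen M (v 0))) = κ (gen M (v 0))
        rw [k0, k0]
      · show κ (κ (gen M (v 1))) = κ (gen M (v 1))
        rw [k1, k1]
      · show κ (κ (gen M (v 2))) = κ (gen M (v 2))
        rw [k2, k1]
      · show κ (κ (gen M (v 3))) = κ (gen M (v 3))
        rw [k3, k3]
      · show κ (κ (gen M (v 4))) = κ (gen M (v 4))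
        rw [k4, k1]
    exact fun g => DFunLike.congr_fun h1 g
  have hback : ∀ g ∈ ap M ({v 4}ᶜ : Set B), Ψ (Φ g) = g := by
    have hb : ∀ b ∈ ({v 4}ᶜ : Set B), Ψ (Φ (gen M b)) = gen M b := by
      intro b hb
      obtain ⟨i, rfl⟩ := h.surj b
      fin_cases i
      · show Ψ (Φ (gen M (v 0))) = gen M (v 0)
        rw [p0, hΨ, SemidirectProduct.left_inr, SemidirectProduct.right_inr, k0, _root_.map_one, one_mul]
      · show Ψ (Φ (gen M (v 1))) = gen M (v 1)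
        rw [p1, hΨ, SemidirectProduct.left_inr, SemidirectProduct.right_inr, k1, _root_.map_one, one_mul]
      · show Ψ (Φ (gen M (v 2))) = gen M (v 2)
        rw [p2, _root_.map_mul, hΨ, hΨ, SemidirectProduct.left_inr, SemidirectProduct.right_inr, SemidirectProduct.left_inl,
          SemidirectProduct.right_inl, k1, _root_.map_one, _root_.map_one, one_mul, mul_one, _root_.map_inv, f0]
        group
      · show Ψ (Φ (gen M (v 3))) = gen M (v 3)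
        rw [p3, hΨ, SemidirectProduct.left_inr, SemidirectProduct.right_inr, k3, _root_.map_one, one_mul]
      · exact absurd rfl hb
    intro g hg
    refine ap_induction (P := fun g => Ψ (Φ g) = g) ?_ ?_ ?_ hg
    · rw [_root_.map_one, _root_.map_one]
    · intro x _ b hb' hx
      rw [_root_.map_mul, _root_.map_mul, hx, hb b hb']
    · intro x _ b hb' hx
      rw [_root_.map_mul, _root_.map_mul, hx, _root_.map_inv, _root_.map_inv, hb b hb']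
  have hf1 : Φ f = SemidirectProduct.inl (Φ f).left := by
    refine SemidirectProduct.ext ?_ ?_
    · rw [SemidirectProduct.left_inl]
    · rw [SemidirectProduct.right_inl, hr, hκf]
  have ha : Φ (gen M (v 1) * (gen M (v 2))⁻¹) = SemidirectProduct.inl (of 0) := by
    rw [_root_.map_mul, _root_.map_inv, p1, p2, mul_inv_rev, mul_inv_cancel_left, _root_.map_inv, inv_inv]
  have h1 := congrArg Φ he
  rw [_root_.map_mul, _root_.map_mul, _root_.map_zpow, _root_.map_zpow, ha, hf1, ← _root_.map_zpow, ← _root_.map_zpow,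
    ← _root_.map_mul, ← _root_.map_mul] at h1
  obtain ⟨n, hn⟩ := mem_of_zpow_mul 0 hk (SemidirectProduct.inl_injective h1)
  refine ⟨n, ?_⟩
  have h2 := hback f hf
  rw [hΨ, hr, hκf, _root_.map_one, mul_one, hn, _root_.map_zpow, f0] at h2
  exact h2.symm

end Pool.Agent.H88.DT
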